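import Pool.Agent.Helper692.HpT.Main

set_option autoImplicit false
open scoped ENNReal

namespace Pool.Agent.Results.MP_552283_an.LargeExponents

open MeasureTheory

/-- the infinite torus, the product of countably many circles `ℝ/ℤ` -/
abbrev Torus : Type := ℕ → AddCircle (1 : ℝ)

/-- its Haar measure, the product of the normalised Haar measures -/
noncomputable def haarTorus : Measure Torus :=
  Measure.infinitePi (fun _ : ℕ => (AddCircle.haarAddCircle : Measure (AddCircle (1 : ℝ))))

/-- the characters of the infinite torus -/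
noncomputable def character (α : ℕ →₀ ℤ) (ω : Torus) : ℂ :=
  ∏ i ∈ α.support, fourier (α i) (ω i)

/-- membership in the Hardy space `H^p`: the function is in `L^p` and every Fourier coefficient
at an exponent with a negative entry vanishes -/
def IsHardy (p : ℝ≥0∞) (f : Torus → ℂ) : Prop :=
  MemLp f p haarTorus ∧
    ∀ α : ℕ →₀ ℤ, (∃ i, α i < 0) → ∫ ω, f ω * character (-α) ω ∂haarTorus = 0

/-- the finite partial sums of `∑ c n • e n` converge (as a net) to `f` in the norm of `L^p` -/
def Expands (p : ℝ≥0∞) (e : ℕ → Torus → ℂ) (c : ℕ → ℂ) (f : Torus → ℂ) : Prop :=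
  Filter.Tendsto (fun F : Finset ℕ => eLpNorm (fun ω => ∑ n ∈ F, c n * e n ω - f ω) p haarTorus)
    Filter.atTop (nhds 0)

/-- For every `250 ≤ p < ∞` the Hardy space `H^p` of the infinite torus has no unconditional
basis: no sequence `e` in `H^p` such that every element of `H^p` has a unique unconditionally
convergent expansion in `e`. -/
theorem result (p : ℝ≥0∞) (hp250 : 250 ≤ p) (hp : p ≠ ⊤) :
    ¬ ∃ e : ℕ → Torus → ℂ, (∀ n, IsHardy p (e n)) ∧
      ∀ f : Torus → ℂ, IsHardy p f → ∃! c : ℕ → ℂ, Expands p e c f := by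
  rintro ⟨e, he, h⟩
  have : Fact ((1 : ℝ≥0∞) ≤ p) := ⟨le_trans (by norm_num) hp250⟩
  have hP : 250 ≤ p.toReal := by
    have := ENNReal.toReal_mono hp hp250
    simpa using this
  have hch : ∀ (α : ℕ →₀ ℤ) (ω : Torus), character (-α) ω =
      ∏ i ∈ α.support, fourier (-(α i)) (ω i) := by
    intro α ω
    unfold character
    rw [Finsupp.support_neg]
    rfl
  have heL : ∀ n, MemLp (e n) p Helper692.HpT.mu := fun n => (he n).1
  have hmem : ∀ n, (heL n).toLp (e n) ∈ Helper692.HpT.Hp p := by
    intro n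
    rw [Helper692.HpT.mem_Hp]
    intro α hα
    rw [← (he n).2 α hα]
    refine integral_congr_ae ?_
    filter_upwards [(heL n).coeFn_toLp] with ω hω
    rw [hω, hch]
  refine Helper692.HpT.no_basis (p := p) hP (fun n => ⟨(heL n).toLp (e n), hmem n⟩) ?_
  intro f
  have hf : IsHardy p ((f : Lp ℂ p Helper692.HpT.mu) : Torus → ℂ) := by
    refine ⟨Lp.memLp _, fun α hα => ?_⟩
    have h1 := (Helper692.HpT.mem_Hp _).1 f.2 α hα
    simp_rw [hch]
    exact h1
  obtain ⟨c, hc, huniq⟩ := h _ hf
  have key : ∀ c : ℕ → ℂ,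
      HasSum (fun n => c n • (⟨(heL n).toLp (e n), hmem n⟩ : Helper692.HpT.Hp p)) f ↔
      Expands p e c ((f : Lp ℂ p Helper692.HpT.mu) : Torus → ℂ) := by
    intro c
    rw [← Topology.IsInducing.subtypeVal.hasSum_iff (g := (Helper692.HpT.Hp p).subtype)]
    unfold HasSum
    rw [SummationFilter.unconditional_filter, Lp.tendsto_Lp_iff_tendsto_eLpNorm']
    unfold Expands
    have h1 : ∀ F : Finset ℕ, eLpNorm
        (⇑(∑ n ∈ F, (⇑(Helper692.HpT.Hp p).subtype ∘
          fun n => c n • (⟨(heL n).toLp (e n), hmem n⟩ : Helper692.HpT.Hp p)) n) -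
          ⇑((Helper692.HpT.Hp p).subtype f)) p Helper692.HpT.mu =
        eLpNorm (fun ω => ∑ n ∈ F, c n * e n ω -
          ((f : Lp ℂ p Helper692.HpT.mu) : Torus → ℂ) ω) p haarTorus := by
      intro F
      refine eLpNorm_congr_ae ?_
      have h2 : (⇑(∑ n ∈ F, (⇑(Helper692.HpT.Hp p).subtype ∘
          fun n => c n • (⟨(heL n).toLp (e n), hmem n⟩ : Helper692.HpT.Hp p)) n) : Torus → ℂ)
          =ᵐ[Helper692.HpT.mu] fun ω => ∑ n ∈ F, c n * e n ω := by
        classical
        induction F using Finset.induction_on with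
        | empty =>
          simp only [Finset.sum_empty]
          exact Lp.coeFn_zero _ _ _
        | insert a s ha ih =>
          rw [Finset.sum_insert ha]
          filter_upwards [Lp.coeFn_add ((⇑(Helper692.HpT.Hp p).subtype ∘
            fun n => c n • (⟨(heL n).toLp (e n), hmem n⟩ : Helper692.HpT.Hp p)) a)
            (∑ n ∈ s, (⇑(Helper692.HpT.Hp p).subtype ∘
              fun n => c n • (⟨(heL n).toLp (e n), hmem n⟩ : Helper692.HpT.Hp p)) n), ih,
            Lp.coeFn_smul (c a) ((heL a).toLp (e a)), (heL a).coeFn_toLp] with ω h3 h4 h5 h6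
          rw [h3, Pi.add_apply, h4, Finset.sum_insert ha]
          congr 1
          refine Eq.trans h5 ?_
          rw [Pi.smul_apply, smul_eq_mul, h6]
      filter_upwards [h2] with ω hω
      rw [Pi.sub_apply, hω]
      rfl
    simp_rw [h1]
  exact ⟨c, (key c).2 hc, fun d hd => huniq d ((key d).1 hd)⟩

end Pool.Agent.Results.MP_552283_an.LargeExponents
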